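import Pool.Agent.V11288.LZ.Diff

/-!
# The numbers of the monoid Stark conjecture for ray classes of real quadratic orders from primes

Let `K` be a real quadratic field, `𝓞` an order in `K` and `𝔪 ≠ 𝓞` a nonzero ideal of `𝓞` which is contained in the
conductor of `𝓞` (every pair `𝓞`, `𝔪'` leads to such ideals `𝔪 = 𝔪' ∩ conductor`).  Let `G = Cl_{𝔪∞₂}(𝓞)` be the ray
class group, the group of units of the ray class monoid.  The invertible ideals of `𝓞` prime to `𝔪` are the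
`𝔞 ∩ 𝓞` with `𝔞` an ideal of `𝓞_K` prime to `𝔪`, and `[𝓞 : 𝔞 ∩ 𝓞] = N𝔞`; we use the ideals `𝔞`.  Let
`Z(s, A) = ζ(s, A) - ζ(s, 𝓡A)` for `A ∈ G`.  Condition (i) of Q1 for `A ∈ G` says that `ε_A = exp(-Z'(0, A))`.

Let `γ > π/2`, and for a character `χ` of `G` and `X > 1`, with `u = k log N𝔭 / log X`,

`W_χ(X) = ∑_{𝔭 ∤ 𝔪} ∑_{k ≥ 1} χ(𝔭)^k / k · e^{iγu} / Γ(1 + u)`,
`E_A(X) = |G|⁻¹ ∑_χ χ(A)⁻¹ exp W_χ(X)`

(the sum over the primes `𝔭` of `K` which do not contain `𝔪`; `χ(𝔭)` is the value at the class of `𝔭 ∩ 𝓞`), and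
`Λ_γ = ∫_0^∞ (e^{-t} - e^{iγt}/Γ(1+t)) dt/t`.  For positive real numbers `ε_A`, `A ∈ G`:

1. `ε_A = exp(-Z'(0, A))` (and `Z(0, A) = 0`) for all `A ∈ G` if and only if
   `(log X) (E_A(X) - E_{𝓡A}(X)) → -e^{Λ_γ} log ε_A` for `X → ∞`, for all `A ∈ G`;

2. in this case `exp(-e^{-Λ_γ} (log X) (E_A(X) - E_{𝓡A}(X))) = ε_A + O(1/log X)`.

So for the invertible classes condition (i) of Q1 is an explicit statement on the distribution of the prime ideals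
in the ray classes of the order.  No hypothesis on the zeros of `L`-functions is used, and of the analytic
continuation only the meromorphic continuation of the `ζ(s, A)` to the points of the real interval `[0, 1]`.  (In
`E_A - E_{𝓡A}` only the characters with `χ(𝓡) ≠ 1` contribute.)

Proof.  `Pool.Agent.V11288.LZ` (leading terms of partial zeta functions, also for differences).
-/

set_option autoImplicit false

namespace Pool.Agent.Results.MP_6bf7a3_nt.MonoidStarkByPrimes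

open Filter Topology Set NumberField IsDedekindDomain

variable {K : Type} [Field K] [NumberField K] {G : Type} [CommGroup G] {O : Subring (𝓞 K)}

/-- The primes of `K` containing `𝔪`. -/
def badPrimes (𝔪 : Ideal O) : Set (HeightOneSpectrum (𝓞 K)) := {v | ∀ x ∈ 𝔪, (x : 𝓞 K) ∈ v.asIdeal}

/-- `𝔞` is nonzero and prime to `𝔪`. -/
def Prime𝔪 (𝔪 : Ideal O) (𝔞 : Ideal (𝓞 K)) : Prop := 𝔞 ≠ 0 ∧ ∀ v ∈ badPrimes 𝔪, ¬ v.asIdeal ∣ 𝔞

/-- `G` is the ray class group `Cl_{𝔪∞₂}(𝓞)`, `∞₂` the real embedding `σ`, and `cls 𝔞` the class of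
`𝔞 ∩ 𝓞`: it is multiplicative, surjective, and `cls 𝔞 = cls 𝔟` iff `α𝔞 = β𝔟` for some `α, β ∈ 𝓞` prime to
`𝔪` with `α ≡ β` modulo `𝔪` and `σ(α)σ(β) > 0`. -/
structure IsRayClass (𝔪 : Ideal O) (σ : K →+* ℝ) (cls : Ideal (𝓞 K) → G) : Prop where
  conductor : ∀ x ∈ 𝔪, ∀ y : 𝓞 K, (x : 𝓞 K) * y ∈ O
  mul : ∀ 𝔞 𝔟, Prime𝔪 𝔪 𝔞 → Prime𝔪 𝔪 𝔟 → cls (𝔞 * 𝔟) = cls 𝔞 * cls 𝔟
  surj : ∀ A : G, ∃ 𝔞, Prime𝔪 𝔪 𝔞 ∧ cls 𝔞 = A
  eq_iff : ∀ 𝔞 𝔟, Prime𝔪 𝔪 𝔞 → Prime𝔪 𝔪 𝔟 → (cls 𝔞 = cls 𝔟 ↔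
    ∃ α β : O, Prime𝔪 𝔪 (Ideal.span {(α : 𝓞 K)}) ∧ Prime𝔪 𝔪 (Ideal.span {(β : 𝓞 K)}) ∧ α - β ∈ 𝔪 ∧
      0 < σ (α : 𝓞 K) * σ (β : 𝓞 K) ∧ Ideal.span {(α : 𝓞 K)} * 𝔞 = Ideal.span {(β : 𝓞 K)} * 𝔟)

/-- `R` is the class of the `α𝓞` with `α ≡ -1` modulo `𝔪` and `σ(α) > 0`. -/
def IsR (𝔪 : Ideal O) (σ : K →+* ℝ) (cls : Ideal (𝓞 K) → G) (R : G) : Prop :=
  ∃ α : O, α + 1 ∈ 𝔪 ∧ 0 < σ (α : 𝓞 K) ∧ R = cls (Ideal.span {(α : 𝓞 K)})

/-- `ζ(s, A)`: the sum of `[𝓞 : 𝔞 ∩ 𝓞]^{-s} = N𝔞^{-s}` over the integral ideals in `A` for `Re s > 1`,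
meromorphic at the points of the real interval `[0, 1]`. -/
structure IsPartialZeta (𝔪 : Ideal O) (cls : Ideal (𝓞 K) → G) (A : G) (Z : ℂ → ℂ) : Prop where
  mero : ∀ x ∈ Icc (0 : ℝ) 1, MeromorphicAt Z (x : ℂ)
  sum : ∀ s : ℂ, 1 < s.re → Z s =
    ∑' 𝔞 : {𝔞 : Ideal (𝓞 K) // Prime𝔪 𝔪 𝔞 ∧ cls 𝔞 = A}, ((Ideal.absNorm 𝔞.1 : ℕ) : ℂ) ^ (-s)

/-- The weight `e^{iγu} / Γ(1 + u)`. -/
noncomputable def weight (γ u : ℝ) : ℂ :=
  Complex.exp ((γ * u : ℝ) * Complex.I) / (Real.Gamma (1 + u) : ℂ)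

/-- The term of `W_χ(X)` at `(𝔭, k)`. -/
noncomputable def term (cls : Ideal (𝓞 K) → G) (χ : G →* ℂˣ) (γ X : ℝ)
    (v : HeightOneSpectrum (𝓞 K)) (k : ℕ) : ℂ :=
  ((χ (cls v.asIdeal) : ℂˣ) : ℂ) ^ k / k *
    weight γ (k * Real.log (Ideal.absNorm v.asIdeal) / Real.log X)

/-- `W_χ(X)`, the sum over the primes not containing `𝔪` and `k ≥ 1` (here `k = x.2 + 1`). -/
noncomputable def W (𝔪 : Ideal O) (cls : Ideal (𝓞 K) → G) (χ : G →* ℂˣ) (γ X : ℝ) : ℂ :=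
  ∑' x : {v : HeightOneSpectrum (𝓞 K) // v ∉ badPrimes 𝔪} × ℕ, term cls χ γ X x.1.1 (x.2 + 1)

/-- `E_A(X) = |G|⁻¹ ∑_χ χ(A⁻¹) exp W_χ(X)`. -/
noncomputable def E (𝔪 : Ideal O) (cls : Ideal (𝓞 K) → G) (γ X : ℝ) (A : G) : ℂ :=
  (∑ᶠ χ : G →* ℂˣ, ((χ A⁻¹ : ℂˣ) : ℂ) * Complex.exp (W 𝔪 cls χ γ X)) / Nat.card G

/-- `Λ_γ = ∫_0^∞ (e^{-t} - e^{iγt} / Γ(1 + t)) dt / t`. -/
noncomputable def Lam (γ : ℝ) : ℂ := ∫ t in Ioi (0 : ℝ),
  (Complex.exp (-(t : ℂ)) - Complex.exp ((γ * t : ℝ) * Complex.I) * ((Real.Gamma (1 + t))⁻¹ : ℝ)) / t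

/-- `Z(0, A) = 0` and `ε = exp(-Z'(0, A))` for `Z(s, A) = ζ(s, A) - ζ(s, RA)`: `Z(s, A)/s → z`, `ε = exp(-z)`. -/
def IsStark (Z : G → ℂ → ℂ) (R A : G) (ε : ℝ) : Prop :=
  ∃ z : ℝ, Tendsto (fun s : ℂ => (Z A s - Z (R * A) s) / s) (𝓝[≠] 0) (𝓝 z) ∧ ε = Real.exp (-z)

open Pool.Agent.V11288.LZ

theorem term_eq (cls : Ideal (𝓞 K) → G) (χ : G →* ℂˣ) (γ X : ℝ) (v : HeightOneSpectrum (𝓞 K))
    (k : ℕ) : cterm cls 0 χ γ X v k = term cls χ γ X v k := by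
  unfold cterm term weight wt
  rw [Real.rpow_zero, Complex.ofReal_one, one_pow, mul_one]

theorem W_eq (𝔪 : Ideal O) (cls : Ideal (𝓞 K) → G) (χ : G →* ℂˣ) (γ X : ℝ) :
    cW (badPrimes 𝔪) cls 0 χ γ X = W 𝔪 cls χ γ X :=
  tsum_congr fun x => term_eq cls χ γ X x.1.1 (x.2 + 1)

theorem E_eq [Finite G] (𝔪 : Ideal O) (cls : Ideal (𝓞 K) → G) (γ X : ℝ) (A : G) :
    dftinv (fun χ => Complex.exp (cW (badPrimes 𝔪) cls 0 χ γ X)) A = E 𝔪 cls γ X A := by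
  unfold dftinv E
  simp only [W_eq]

/-- **The numbers of the monoid Stark conjecture as limits of sums over primes.** -/
theorem result (_ : Module.finrank ℚ K = 2) (𝔪 : Ideal O) (_ : 𝔪 ≠ ⊥) (_ : 𝔪 ≠ ⊤)
    (σ : K →+* ℝ) [Finite G] (cls : Ideal (𝓞 K) → G) (hc : IsRayClass 𝔪 σ cls) (R : G)
    (_ : IsR 𝔪 σ cls R) (Z : G → ℂ → ℂ) (hZ : ∀ A, IsPartialZeta 𝔪 cls A (Z A)) (γ : ℝ)
    (hγ : Real.pi / 2 < γ) (ε : G → ℝ) (hε : ∀ A, 0 < ε A) :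
    ((∀ A, IsStark Z R A (ε A)) ↔
      ∀ A, Tendsto (fun X : ℝ => Real.log X * (E 𝔪 cls γ X A - E 𝔪 cls γ X (R * A))) atTop
        (𝓝 (-(Complex.exp (Lam γ) * Real.log (ε A))))) ∧
    ((∀ A, IsStark Z R A (ε A)) →
      ∀ A, (fun X : ℝ => Complex.exp (-(Complex.exp (-Lam γ) *
        (Real.log X * (E 𝔪 cls γ X A - E 𝔪 cls γ X (R * A))))) - ε A) =O[atTop]
        (fun X : ℝ => 1 / Real.log X)) := by
  set z : G → ℂ := fun A => -((Real.log (ε A) : ℝ) : ℂ) with hz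
  have h0 : (∀ A, IsStark Z R A (ε A)) ↔
      ∀ A, Tendsto (fun s : ℂ => (Z A s - Z (R * A) s) / (s - ((0 : ℝ) : ℂ)) ^ (1 : ℤ))
        (𝓝[≠] ((0 : ℝ) : ℂ)) (𝓝 (z A)) := by
    refine forall_congr' fun A => ?_
    simp only [Complex.ofReal_zero, sub_zero, zpow_one]
    constructor
    · rintro ⟨y, hy, hy2⟩
      have h1 : z A = (y : ℂ) := by
        rw [hz]
        simp only
        rw [hy2, Real.log_exp]
        push_cast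
        ring
      rw [h1]
      exact hy
    · intro h
      refine ⟨-Real.log (ε A), ?_, ?_⟩
      · push_cast
        exact h
      · rw [neg_neg, Real.exp_log (hε A)]
  obtain ⟨h1, h2⟩ := diff_main (S := badPrimes 𝔪) (cls := cls) (ζ := Z)
    (fun 𝔞 𝔟 h h' => hc.mul 𝔞 𝔟 h h') 0 (fun g x hx => (hZ g).mero x hx)
    (fun g s hs => (hZ g).sum s hs) hγ 1 R z
  rw [h0]
  simp only [E_eq, zpow_one, Int.cast_one, one_mul] at h1 h2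
  have hlim : ∀ A, Complex.exp (Pool.Agent.W187.UR.Lam γ) * z A =
      -(Complex.exp (Lam γ) * Real.log (ε A)) := by
    intro A
    rw [hz]
    show Complex.exp (Lam γ) * -(Real.log (ε A) : ℂ) = _
    ring
  simp only [hlim] at h1 h2
  simp only [zpow_one]
  refine ⟨h1, fun h A => ?_⟩
  have h3 := h2 h A
  set D : ℝ → ℂ := fun X => Real.log X * (E 𝔪 cls γ X A - E 𝔪 cls γ X (R * A)) with hD
  have h4 : ∀ X : ℝ, Complex.exp (-(Complex.exp (-Lam γ) * D X)) - ε A =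
      ε A * (Complex.exp (-Complex.exp (-Lam γ) * (D X - -(Complex.exp (Lam γ) *
        Real.log (ε A)))) - 1) := by
    intro X
    have h5 : (ε A : ℂ) = Complex.exp (Real.log (ε A)) := by
      rw [← Complex.ofReal_exp, Real.exp_log (hε A)]
    rw [h5, mul_sub, mul_one, ← Complex.exp_add]
    congr 2
    have h6 : Complex.exp (-Lam γ) * Complex.exp (Lam γ) = 1 := by
      rw [← Complex.exp_add, neg_add_cancel, Complex.exp_zero]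
    linear_combination (Real.log (ε A) : ℂ) * h6
  refine Asymptotics.IsBigO.congr_left ?_ fun X => (h4 X).symm
  refine Asymptotics.IsBigO.const_mul_left ?_ _
  have h5 : Tendsto (fun X : ℝ => -Complex.exp (-Lam γ) * (D X -
      -(Complex.exp (Lam γ) * Real.log (ε A)))) atTop (𝓝 0) := by
    have h6 := (h3.trans_tendsto (tendsto_const_nhds.div_atTop Real.tendsto_log_atTop)).const_mul
      (-Complex.exp (-Lam γ))
    rw [mul_zero] at h6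
    exact h6
  refine Asymptotics.IsBigO.trans (g := fun X : ℝ => -Complex.exp (-Lam γ) *
    (D X - -(Complex.exp (Lam γ) * Real.log (ε A)))) ?_ (h3.const_mul_left _)
  refine Asymptotics.IsBigO.of_bound 2 ?_
  filter_upwards [h5.norm.eventually (eventually_le_nhds (b := (1 : ℝ)) (by simp))] with X hX
  exact Complex.norm_exp_sub_one_le hX

end Pool.Agent.Results.MP_6bf7a3_nt.MonoidStarkByPrimes
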